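import Pool.Agent.H346R2.QG.PDefs
import Pool.Agent.Cov.PNT

set_option autoImplicit false

/-!
# Prime number theorem modulo 4, theta form
-/

open Filter Topology

namespace Pool.Agent.H346R2.QG

namespace PAAux

open ArithmeticFunction Chebyshev

theorem psi_theta_tendsto :
    Tendsto (fun x : ℝ => (Chebyshev.psi x - Chebyshev.theta x) / x) atTop (𝓝 0) := by
  obtain ⟨C, hC⟩ := Chebyshev.psi_sub_theta_le_mul_sqrt
  have h2 : Tendsto (fun x : ℝ => C * (Real.sqrt x)⁻¹) atTop (𝓝 0) := by
    have := (tendsto_inv_atTop_zero.comp Real.tendsto_sqrt_atTop).const_mul C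
    simpa [Function.comp_def] using this
  refine squeeze_zero' ?_ ?_ h2
  · filter_upwards [eventually_gt_atTop 0] with x hx
    exact div_nonneg (sub_nonneg.mpr (Chebyshev.theta_le_psi x)) hx.le
  · filter_upwards [eventually_gt_atTop 0] with x hx
    rw [div_le_iff₀ hx]
    refine (hC x).trans (le_of_eq ?_)
    have hs : 0 < Real.sqrt x := Real.sqrt_pos.mpr hx
    have hx2 : Real.sqrt x * Real.sqrt x = x := Real.mul_self_sqrt hx.le
    field_simp
    rw [sq, hx2]

/-- the von Mangoldt weight of the class -/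
noncomputable def Rr (a k : ℕ) : ℝ := vonMangoldt.residueClass ((a : ℕ) : ZMod 4) k

/-- the weight of the primes of the class -/
noncomputable def tt (a k : ℕ) : ℝ := if k.Prime ∧ k % 4 = a then Real.log k else 0

/-- the weight of the primes -/
noncomputable def uu (k : ℕ) : ℝ := if k.Prime then Real.log k else 0

theorem uu_le (k : ℕ) : uu k ≤ vonMangoldt k := by
  unfold uu
  split_ifs with h
  · rw [vonMangoldt_apply_prime h]
  · exact vonMangoldt_nonneg

theorem class_iff (a : ℕ) (ha : a < 4) (k : ℕ) : ((k : ℕ) : ZMod 4) = ((a : ℕ) : ZMod 4) ↔ k % 4 = a := by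
  have h := ZMod.natCast_eq_natCast_iff' k a 4
  rw [Nat.mod_eq_of_lt ha] at h
  exact h

theorem diff_bd (a : ℕ) (ha : a < 4) (k : ℕ) :
    0 ≤ Rr a k - tt a k ∧ Rr a k - tt a k ≤ vonMangoldt k - uu k := by
  have hu := uu_le k
  by_cases h : k % 4 = a
  · have h1 : Rr a k = vonMangoldt k := by
      unfold Rr
      rw [vonMangoldt.residueClass, Set.indicator_of_mem]
      exact (class_iff a ha k).2 h
    have h2 : tt a k = uu k := by
      unfold tt uu
      by_cases h3 : k.Prime
      · rw [if_pos ⟨h3, h⟩, if_pos h3]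
      · rw [if_neg (fun h4 => h3 h4.1), if_neg h3]
    rw [h1, h2]
    exact ⟨by linarith, le_rfl⟩
  · have h1 : Rr a k = 0 := by
      unfold Rr
      rw [vonMangoldt.residueClass, Set.indicator_of_notMem]
      exact fun h' => h ((class_iff a ha k).1 h')
    have h2 : tt a k = 0 := by
      unfold tt
      rw [if_neg (fun h4 => h h4.2)]
    rw [h1, h2]
    exact ⟨by norm_num, by linarith⟩

theorem sum_tt (a m : ℕ) :
    ∑ p ∈ (Finset.range (m + 1)).filter (fun p => p.Prime ∧ p % 4 = a), Real.log p =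
      ∑ k ∈ Finset.Ioc 0 m, tt a k := by
  rw [Finset.sum_filter]
  symm
  have : ∀ k : ℕ, tt a k = if k.Prime ∧ k % 4 = a then Real.log k else 0 := fun k => rfl
  simp only [this]
  apply Finset.sum_subset
  · intro k hk
    rw [Finset.mem_Ioc] at hk
    rw [Finset.mem_range]
    omega
  · intro k hk hk2
    rw [Finset.mem_range] at hk
    rw [Finset.mem_Ioc] at hk2
    have : k = 0 := by omega
    rw [this, if_neg]
    intro h
    exact Nat.not_prime_zero h.1

theorem sum_uu (m : ℕ) : Chebyshev.theta (m : ℝ) = ∑ k ∈ Finset.Ioc 0 m, uu k := by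
  unfold Chebyshev.theta
  rw [Nat.floor_natCast, Finset.sum_filter]
  rfl

theorem sum_psi (m : ℕ) : Chebyshev.psi (m : ℝ) = ∑ k ∈ Finset.Ioc 0 m, vonMangoldt k := by
  unfold Chebyshev.psi
  rw [Nat.floor_natCast]

theorem R_tendsto (a : ℕ) (ha : a = 1 ∨ a = 3) :
    Tendsto (fun m : ℕ => (∑ k ∈ Finset.Ioc 0 m, Rr a k) / (m : ℝ)) atTop (𝓝 (1 / 2)) := by
  have hu : IsUnit ((a : ℕ) : ZMod 4) := by
    rw [ZMod.isUnit_iff_coprime]
    rcases ha with rfl | rfl <;> decide
  have h := (Pool.Agent.Cov.PNT.pnt_residueClass (q := 4) hu).comp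
    (tendsto_natCast_atTop_atTop (R := ℝ))
  have e : (((Nat.totient 4 : ℕ) : ℝ))⁻¹ = 1 / 2 := by
    have : Nat.totient 4 = 2 := by decide
    rw [this]
    norm_num
  rw [e] at h
  refine h.congr fun n => ?_
  simp only [Function.comp, Nat.floor_natCast]
  rfl

end PAAux

open PAAux

theorem PA (a : ℕ) (ha : a = 1 ∨ a = 3) : Tendsto (fun m : ℕ =>
    (∑ p ∈ (Finset.range (m + 1)).filter (fun p => p.Prime ∧ p % 4 = a), Real.log p) / (m : ℝ))
    atTop (𝓝 (1 / 2)) := by
  have ha4 : a < 4 := by omega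
  have h1 := R_tendsto a ha
  have h2 : Tendsto (fun m : ℕ => (∑ k ∈ Finset.Ioc 0 m, (Rr a k - tt a k)) / (m : ℝ)) atTop
      (𝓝 0) := by
    have h3 := psi_theta_tendsto.comp (tendsto_natCast_atTop_atTop (R := ℝ))
    refine squeeze_zero (fun m => ?_) (fun m => ?_) h3
    · exact div_nonneg (Finset.sum_nonneg fun k _ => (diff_bd a ha4 k).1) (Nat.cast_nonneg m)
    · simp only [Function.comp]
      rw [sum_psi, sum_uu, ← Finset.sum_sub_distrib]
      exact div_le_div_of_nonneg_right (Finset.sum_le_sum fun k _ => (diff_bd a ha4 k).2)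
        (Nat.cast_nonneg m)
  have h3 := h1.sub h2
  rw [sub_zero] at h3
  refine h3.congr fun m => ?_
  rw [sum_tt, Finset.sum_sub_distrib]
  ring

end Pool.Agent.H346R2.QG
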