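import Pool.Agent.H346R2.QG.PDefs

/-!
# Prime sum for QG: valuations of the superfactorial, large primes
-/

open Filter Topology

namespace Pool.Agent.H346R2.QG

/-- `∑_{p ∈ P} v_p(m) log p ≤ log m` -/
lemma sum_val_log (m : ℕ) (P : Finset ℕ) (hP : ∀ p ∈ P, p.Prime) :
    ∑ p ∈ P, (padicValNat p m : ℝ) * Real.log p ≤ Real.log m := by
  classical
  rw [Real.log_nat_eq_sum_factorization, Finsupp.sum]
  have h1 : ∑ p ∈ P, (padicValNat p m : ℝ) * Real.log p =
      ∑ p ∈ P.filter (fun p => p ∈ m.factorization.support), (padicValNat p m : ℝ) * Real.log p := by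
    rw [Finset.sum_filter]
    apply Finset.sum_congr rfl
    intro p hp
    split_ifs with h
    · rfl
    · rw [Finsupp.notMem_support_iff, Nat.factorization_def _ (hP p hp)] at h
      rw [h]
      simp
  rw [h1]
  have h2 : ∑ p ∈ P.filter (fun p => p ∈ m.factorization.support), (padicValNat p m : ℝ) * Real.log p =
      ∑ p ∈ P.filter (fun p => p ∈ m.factorization.support), (m.factorization p : ℝ) * Real.log p := by
    apply Finset.sum_congr rfl
    intro p hp
    rw [Finset.mem_filter] at hp
    rw [Nat.factorization_def _ (hP p hp.1)]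
  rw [h2]
  apply Finset.sum_le_sum_of_subset_of_nonneg
  · intro p hp
    rw [Finset.mem_filter] at hp
    exact hp.2
  · intro p _ _
    exact mul_nonneg (Nat.cast_nonneg _) (Real.log_natCast_nonneg p)

lemma sum_div (p M : ℕ) (hp : 0 < p) :
    2 * ∑ i ∈ Finset.range M, ((i / p : ℕ) : ℤ) =
      (p : ℤ) * ((M / p : ℕ) : ℤ) * (((M / p : ℕ) : ℤ) - 1) + 2 * ((M / p : ℕ) : ℤ) * ((M % p : ℕ) : ℤ) := by
  induction M with
  | zero => simp
  | succ M ih =>
    rw [Finset.sum_range_succ, mul_add, ih]
    have hz : M % p < p := Nat.mod_lt _ hp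
    have hM : p * (M / p) + M % p = M := Nat.div_add_mod M p
    rcases Nat.lt_or_ge (M % p + 1) p with h | h
    · have e1 : (M + 1) / p = M / p := by
        apply Nat.div_eq_of_lt_le
        · exact (Nat.div_mul_le_self M p).trans (Nat.le_succ M)
        · rw [add_mul, one_mul, mul_comm]
          omega
      have e2 : (M + 1) % p = M % p + 1 := by
        have h2 : p * ((M + 1) / p) + (M + 1) % p = M + 1 := Nat.div_add_mod _ p
        rw [e1] at h2
        omega
      rw [e1, e2]
      push_cast
      ring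
    · have h3 : M % p + 1 = p := by omega
      have h4 : M + 1 = p * (M / p + 1) := by
        rw [mul_add, mul_one]
        omega
      have e1 : (M + 1) / p = M / p + 1 := by
        rw [h4, Nat.mul_div_cancel_left _ hp]
      have e2 : (M + 1) % p = 0 := by
        rw [h4, Nat.mul_mod_right]
      rw [e1, e2]
      have h5 : ((M % p : ℕ) : ℤ) = p - 1 := by omega
      rw [h5]
      push_cast
      ring

lemma val_prod (p M : ℕ) [Fact p.Prime] (h : M ≤ p ^ 2) :
    padicValNat p (∏ i ∈ Finset.range M, i.factorial) = ∑ i ∈ Finset.range M, i / p := by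
  induction M with
  | zero => simp
  | succ M ih =>
    rw [Finset.prod_range_succ, Finset.sum_range_succ, padicValNat.mul
      (Finset.prod_ne_zero_iff.2 fun i _ => i.factorial_ne_zero) M.factorial_ne_zero, ih (by omega)]
    congr 1
    have hp : p.Prime := Fact.out
    have h1 : Nat.log p M < 2 := Nat.log_lt_of_lt_pow' (by norm_num) (by omega)
    rw [padicValNat_factorial h1]
    simp

lemma SF_eq (n p : ℕ) (hp : p.Prime) (h : 7 * n ≤ p ^ 2) :
    SF n p = 2 * (padicValNat p (∏ i ∈ Finset.range (7 * n), i.factorial) : ℤ) := by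
  have : Fact p.Prime := ⟨hp⟩
  rw [val_prod p (7 * n) h]
  unfold SF
  rw [← sum_div p (7 * n) hp.pos]
  push_cast
  rfl

/-- large primes -/
lemma large (n σ p : ℕ) (hσ : σ = 1 ∨ σ = 3) (hp : p % 2 = 1) (h : 8 * n < p) :
    20 * ((2 * (8 * n - jj σ p) : ℕ) : ℤ) ≤ (if p % 4 = σ then FA n p else FB n p) + 1000 := by
  have a1 : 4 * n - p = 0 := by omega
  have a2 : 7 * n - 2 * p = 0 := by omega
  have a3 : 10 * n - 3 * p = 0 := by omega
  have a4 : 8 * n - 3 * p = 0 := by omega
  have a5 : 10 * n - 4 * p = 0 := by omega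
  have a6 : 7 * n - 3 * p = 0 := by omega
  have a7 : 2 * n - p = 0 := by omega
  have a8 : 8 * n - p = 0 := by omega
  have a9 : 7 * n - p = 0 := by omega
  have a10 : 32 * n - 5 * p = 0 := by omega
  have a11 : 5 * n - p = 0 := by omega
  have b1 : ¬ p ≤ 2 * n := by omega
  have b2 : ¬ p ≤ 8 * n := by omega
  unfold FA FB FR jj
  simp only [a1, a2, a3, a4, a5, a6, a7, a8, a9, a10, a11, b1, b2, if_false]
  split_ifs with h4
  · omega
  · omega

end Pool.Agent.H346R2.QG
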