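import Pool.Agent.H346R2.QG.PDefs

/-!
# Prime sum for QG: limits of the majorants
-/

open Filter Topology

namespace Pool.Agent.H346R2.QG

/-- statement of `PA` -/
def PAs : Prop := ∀ a : ℕ, a = 1 ∨ a = 3 → Tendsto (fun m : ℕ =>
    (∑ p ∈ (Finset.range (m + 1)).filter (fun p => p.Prime ∧ p % 4 = a), Real.log p) / (m : ℝ)) atTop (𝓝 (1 / 2))

/-- statement of `PA2` -/
def PA2s : Prop := ∀ a : ℕ, a = 1 ∨ a = 3 → ∀ α j : ℕ, α ≤ 32 → 1 ≤ j → Tendsto (fun n : ℕ =>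
    (∑ p ∈ PP a n, ((α * n - j * p : ℕ) : ℝ) * Real.log p) / (n : ℝ) ^ 2) atTop (𝓝 ((α : ℝ) ^ 2 / (4 * j)))

lemma ind_lim (hPA : PAs) (a : ℕ) (ha : a = 1 ∨ a = 3) (β : ℕ) (h1 : 1 ≤ β) (h2 : β ≤ 32) (c : ℝ) :
    Tendsto (fun n : ℕ => (∑ p ∈ PP a n, (if p ≤ β * n then c * (n : ℝ) else 0) * Real.log p) / (n : ℝ) ^ 2) atTop
      (𝓝 (c * β / 2)) := by
  have h3 : Tendsto (fun n : ℕ => β * n) atTop atTop :=
    tendsto_id.const_mul_atTop' (by omega)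
  have h4 := ((hPA a ha).comp h3).const_mul (c * β)
  have e : c * (β : ℝ) * (1 / 2) = c * β / 2 := by ring
  rw [e] at h4
  refine h4.congr' ?_
  filter_upwards [eventually_ge_atTop 1] with n hn
  have hn0 : (n : ℝ) ≠ 0 := by exact_mod_cast (by omega : n ≠ 0)
  have hb0 : (β : ℝ) ≠ 0 := by exact_mod_cast (by omega : β ≠ 0)
  have h5 : ∑ p ∈ PP a n, (if p ≤ β * n then c * (n : ℝ) else 0) * Real.log p =
      c * n * ∑ p ∈ (Finset.range (β * n + 1)).filter (fun p => p.Prime ∧ p % 4 = a), Real.log p := by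
    rw [Finset.mul_sum]
    have h6 : (Finset.range (β * n + 1)).filter (fun p => p.Prime ∧ p % 4 = a) =
        (PP a n).filter (fun p => p ≤ β * n) := by
      ext p
      unfold PP
      simp only [Finset.mem_filter, Finset.mem_range]
      constructor
      · rintro ⟨h7, h8, h9⟩
        have : β * n ≤ 32 * n := Nat.mul_le_mul_right n h2
        exact ⟨⟨by omega, h8, h9⟩, by omega⟩
      · rintro ⟨⟨h7, h8, h9⟩, h10⟩
        exact ⟨by omega, h8, h9⟩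
    rw [h6, Finset.sum_filter]
    apply Finset.sum_congr rfl
    intro p _
    split_ifs <;> simp
  rw [h5]
  simp only [Function.comp]
  push_cast
  field_simp

lemma FR_lim (hPA : PAs) (hPA2 : PA2s) (a : ℕ) (ha : a = 1 ∨ a = 3) :
    Tendsto (fun n : ℕ => (∑ p ∈ PP a n, (FR n p : ℝ) * Real.log p) / (n : ℝ) ^ 2) atTop (𝓝 206) := by
  have t1 := (hPA2 a ha 4 1 (by norm_num) (by norm_num)).const_mul 120
  have t2 := (hPA2 a ha 7 2 (by norm_num) (by norm_num)).const_mul 40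
  have t3 := (hPA2 a ha 10 3 (by norm_num) (by norm_num)).const_mul 20
  have t4 := (hPA2 a ha 8 3 (by norm_num) (by norm_num)).const_mul 60
  have t5 := (hPA2 a ha 10 4 (by norm_num) (by norm_num)).const_mul 20
  have t6 := (hPA2 a ha 7 3 (by norm_num) (by norm_num)).const_mul 40
  have t7 := ind_lim hPA a ha 2 (by norm_num) (by norm_num) 32
  have t8 := (hPA2 a ha 2 1 (by norm_num) (by norm_num)).const_mul 74
  have t := ((((((t1.sub t2).sub t3).add t4).sub t5).sub t6).add t7).add t8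
  have e : 120 * (((4 : ℕ) : ℝ) ^ 2 / (4 * ((1 : ℕ) : ℝ))) - 40 * (((7 : ℕ) : ℝ) ^ 2 / (4 * ((2 : ℕ) : ℝ))) -
      20 * (((10 : ℕ) : ℝ) ^ 2 / (4 * ((3 : ℕ) : ℝ))) + 60 * (((8 : ℕ) : ℝ) ^ 2 / (4 * ((3 : ℕ) : ℝ))) -
      20 * (((10 : ℕ) : ℝ) ^ 2 / (4 * ((4 : ℕ) : ℝ))) - 40 * (((7 : ℕ) : ℝ) ^ 2 / (4 * ((3 : ℕ) : ℝ))) +
      32 * ((2 : ℕ) : ℝ) / 2 + 74 * (((2 : ℕ) : ℝ) ^ 2 / (4 * ((1 : ℕ) : ℝ))) = 206 := by
    norm_num
  rw [e] at t
  refine t.congr fun n => ?_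
  simp only [← mul_div_assoc, ← sub_div, ← add_div]
  congr 1
  simp only [Finset.mul_sum, ← Finset.sum_sub_distrib, ← Finset.sum_add_distrib]
  apply Finset.sum_congr rfl
  intro p _
  unfold FR
  simp only [one_mul]
  push_cast
  split_ifs <;> ring

lemma FA_lim (hPA : PAs) (hPA2 : PA2s) (a : ℕ) (ha : a = 1 ∨ a = 3) :
    Tendsto (fun n : ℕ => (∑ p ∈ PP a n, (FA n p : ℝ) * Real.log p) / (n : ℝ) ^ 2) atTop (𝓝 2570) := by
  have t0 := FR_lim hPA hPA2 a ha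
  have t1 := (hPA2 a ha 32 1 (by norm_num) (by norm_num)).const_mul 10
  have t2 := ind_lim hPA a ha 8 (by norm_num) (by norm_num) 20
  have t3 := (hPA2 a ha 8 1 (by norm_num) (by norm_num)).const_mul 55
  have t4 := (hPA2 a ha 7 1 (by norm_num) (by norm_num)).const_mul 40
  have t5 := (hPA2 a ha 32 5 (by norm_num) (by norm_num)).const_mul 5
  have t6 := (hPA2 a ha 5 1 (by norm_num) (by norm_num)).const_mul 40
  have t := (((((t1.sub t2).add t3).sub t4).sub t5).sub t6).add t0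
  have e : 10 * (((32 : ℕ) : ℝ) ^ 2 / (4 * ((1 : ℕ) : ℝ))) - 20 * ((8 : ℕ) : ℝ) / 2 +
      55 * (((8 : ℕ) : ℝ) ^ 2 / (4 * ((1 : ℕ) : ℝ))) - 40 * (((7 : ℕ) : ℝ) ^ 2 / (4 * ((1 : ℕ) : ℝ))) -
      5 * (((32 : ℕ) : ℝ) ^ 2 / (4 * ((5 : ℕ) : ℝ))) - 40 * (((5 : ℕ) : ℝ) ^ 2 / (4 * ((1 : ℕ) : ℝ))) + 206 = 2570 := by
    norm_num
  rw [e] at t
  refine t.congr fun n => ?_
  simp only [← mul_div_assoc, ← sub_div, ← add_div]
  congr 1
  simp only [Finset.mul_sum, ← Finset.sum_sub_distrib, ← Finset.sum_add_distrib]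
  apply Finset.sum_congr rfl
  intro p _
  unfold FA
  simp only [one_mul]
  push_cast
  split_ifs <;> ring

lemma FB_lim (hPA : PAs) (hPA2 : PA2s) (a : ℕ) (ha : a = 1 ∨ a = 3) :
    Tendsto (fun n : ℕ => (∑ p ∈ PP a n, (FB n p : ℝ) * Real.log p) / (n : ℝ) ^ 2) atTop (𝓝 (3328 / 3)) := by
  have t0 := FR_lim hPA hPA2 a ha
  have t1 := (hPA2 a ha 32 3 (by norm_num) (by norm_num)).const_mul 10
  have t2 := ind_lim hPA a ha 8 (by norm_num) (by norm_num) 60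
  have t3 := (hPA2 a ha 8 1 (by norm_num) (by norm_num)).const_mul 50
  have t4 := (hPA2 a ha 7 1 (by norm_num) (by norm_num)).const_mul 40
  have t6 := (hPA2 a ha 5 1 (by norm_num) (by norm_num)).const_mul 80
  have t := ((((t1.add t2).add t3).sub t4).sub t6).add t0
  have e : 10 * (((32 : ℕ) : ℝ) ^ 2 / (4 * ((3 : ℕ) : ℝ))) + 60 * ((8 : ℕ) : ℝ) / 2 +
      50 * (((8 : ℕ) : ℝ) ^ 2 / (4 * ((1 : ℕ) : ℝ))) - 40 * (((7 : ℕ) : ℝ) ^ 2 / (4 * ((1 : ℕ) : ℝ))) -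
      80 * (((5 : ℕ) : ℝ) ^ 2 / (4 * ((1 : ℕ) : ℝ))) + 206 = 3328 / 3 := by
    norm_num
  rw [e] at t
  refine t.congr fun n => ?_
  simp only [← mul_div_assoc, ← sub_div, ← add_div]
  congr 1
  simp only [Finset.mul_sum, ← Finset.sum_sub_distrib, ← Finset.sum_add_distrib]
  apply Finset.sum_congr rfl
  intro p _
  unfold FB
  simp only [one_mul]
  push_cast
  split_ifs <;> ring

/-- crude lower bounds -/
lemma FR_lb (n p : ℕ) : -(720 : ℤ) * n - 280 * n ≤ FR n p := by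
  unfold FR
  split_ifs <;> omega

end Pool.Agent.H346R2.QG
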