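import Pool.Agent.H346R2.QG.PD1
import Pool.Agent.H346R2.QG.PD2

/-!
# Prime sum for QG: assembly
-/

open Filter Topology

namespace Pool.Agent.H346R2.QG

def PBs : Prop := ∀ ε : ℝ, 0 < ε → ∀ᶠ n : ℕ in atTop,
    2 * ∑ i ∈ Finset.range (7 * n), Real.log (i.factorial : ℝ) ≤
      49 * (n : ℝ) ^ 2 * Real.log n + (49 * Real.log 7 - 147 / 2 + ε) * (n : ℝ) ^ 2

def PC1s : Prop := ∀ n σ p : ℕ, 0 < p → p ≤ 2 * n → 20 * (E2 n σ p - SF n p) ≤ 280 * n + 6 * p

def PC2s : Prop := ∀ n σ p : ℕ, σ = 1 ∨ σ = 3 → p % 2 = 1 → 2 * n < p → p ≤ 8 * n →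
    20 * (E2 n σ p - SF n p) ≤ (if p % 4 = σ then FA n p else FB n p) + 1000

/-- the superfactorial -/
def sfac (n : ℕ) : ℕ := ∏ i ∈ Finset.range (7 * n), i.factorial

def PQ (n : ℕ) : Finset ℕ := (Finset.range (32 * n + 4)).filter Nat.Prime

/-- the majorant -/
def Fs (σ n p : ℕ) : ℤ := if p % 4 = σ then FA n p else FB n p

lemma Fs_eq_small (n p : ℕ) (h : p ≤ 2 * n) : FA n p = 280 * n + 6 * p ∧ FB n p = 280 * n + 6 * p := by
  unfold FA FB FR
  have h8 : p ≤ 8 * n := by omega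
  simp only [h, h8, if_true]
  constructor
  · omega
  · omega

/-- lower bound for the majorant -/
lemma Fs_lb (σ n p : ℕ) : -(3000 : ℤ) * n ≤ Fs σ n p := by
  have h := FR_lb n p
  unfold Fs FA FB
  split_ifs <;> omega

lemma medium (hC1 : PC1s) (hC2 : PC2s) (n σ p : ℕ) (hσ : σ = 1 ∨ σ = 3) (hp : p % 2 = 1) (h : p ≤ 8 * n) :
    20 * (E2 n σ p - SF n p) ≤ Fs σ n p + 1000 := by
  unfold Fs
  rcases Nat.lt_or_ge (2 * n) p with h2 | h2
  · exact hC2 n σ p hσ hp h2 h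
  · have h3 := hC1 n σ p (by omega) h2
    obtain ⟨h4, h5⟩ := Fs_eq_small n p h2
    rw [h4, h5]
    split_ifs <;> omega


/-- pointwise bound -/
lemma pointwise (hC1 : PC1s) (hC2 : PC2s) (σ : ℕ) (hσ : σ = 1 ∨ σ = 3) (C : ℝ) (hC : 0 ≤ C) (n : ℕ) (hn : 1 ≤ n)
    (b : ℕ → ℝ)
    (h1 : ∀ p, p.Prime → 8 * n < p → b p ≤ ((2 * (8 * n - jj σ p) : ℕ) : ℝ) * Real.log p)
    (h2 : ∀ p, p.Prime → p ≤ 8 * n → 32 * n + 3 < p ^ 2 → b p ≤ (E2 n σ p : ℝ) * Real.log p)
    (h3 : ∀ p, p.Prime → p ^ 2 ≤ 32 * n + 3 →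
      b p ≤ (2 * (padicValNat p (sfac n) : ℝ) + C * n * ((Nat.log p (32 * n + 3) : ℝ) + 1)) * Real.log p)
    (p : ℕ) (hp : p.Prime) (hpn : p ≤ 32 * n + 3) :
    b p ≤ 2 * (padicValNat p (sfac n) : ℝ) * Real.log p +
      ((if p ^ 2 ≤ 32 * n + 3 then (2 * C + 150) * n * Real.log (32 * n + 3) else 0) +
      (if p % 2 = 1 then (Fs σ n p : ℝ) / 20 * Real.log p else 0) + 50 * Real.log p) := by
  have hlp : 0 ≤ Real.log p := Real.log_natCast_nonneg p
  have hp1 : (1 : ℝ) < p := by exact_mod_cast hp.one_lt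
  have hL : Real.log p ≤ Real.log (32 * n + 3) := by
    apply Real.log_le_log (by linarith)
    exact_mod_cast hpn
  have hL0 : 0 ≤ Real.log (32 * (n : ℝ) + 3) := hlp.trans hL
  have hn0 : (0 : ℝ) ≤ n := Nat.cast_nonneg n
  by_cases hs : p ^ 2 ≤ 32 * n + 3
  · rw [if_pos hs]
    have h4 := h3 p hp hs
    have h5 : (Nat.log p (32 * n + 3) : ℝ) * Real.log p ≤ Real.log (32 * n + 3) := by
      have h6 : p ^ Nat.log p (32 * n + 3) ≤ 32 * n + 3 := Nat.pow_log_le_self p (by omega)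
      have h7 : ((p : ℝ)) ^ Nat.log p (32 * n + 3) ≤ 32 * n + 3 := by exact_mod_cast h6
      have h8 := Real.log_le_log (by positivity) h7
      rwa [Real.log_pow] at h8
    have h9 : C * n * ((Nat.log p (32 * n + 3) : ℝ) + 1) * Real.log p ≤ 2 * C * n * Real.log (32 * n + 3) := by
      have h10 : ((Nat.log p (32 * n + 3) : ℝ) + 1) * Real.log p ≤ 2 * Real.log (32 * n + 3) := by linarith
      have h11 := mul_le_mul_of_nonneg_left h10 (mul_nonneg hC hn0)
      linarith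
    have h12 : -(150 * n * Real.log (32 * n + 3)) ≤ (if p % 2 = 1 then (Fs σ n p : ℝ) / 20 * Real.log p else 0) := by
      split_ifs with ho
      · have h13 : -(3000 : ℝ) * n ≤ (Fs σ n p : ℝ) := by exact_mod_cast Fs_lb σ n p
        have h14 : -(150 : ℝ) * n * Real.log p ≤ (Fs σ n p : ℝ) / 20 * Real.log p :=
          mul_le_mul_of_nonneg_right (by linarith) hlp
        have h15 : 150 * (n : ℝ) * Real.log p ≤ 150 * n * Real.log (32 * n + 3) :=
          mul_le_mul_of_nonneg_left hL (by positivity)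
        linarith
      · have : 0 ≤ 150 * (n : ℝ) * Real.log (32 * n + 3) := by positivity
        linarith
    linarith
  · rw [if_neg hs]
    have hs' : 32 * n + 3 < p ^ 2 := by omega
    have ho : p % 2 = 1 := by
      rcases hp.eq_two_or_odd with h | h
      · rw [h] at hs'
        omega
      · exact h
    rw [if_pos ho]
    rcases Nat.lt_or_ge (8 * n) p with h8 | h8
    · have h4 := h1 p hp h8
      have h5 : (20 : ℝ) * ((2 * (8 * n - jj σ p) : ℕ) : ℝ) ≤ (Fs σ n p : ℝ) + 1000 := by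
        have := large n σ p hσ ho h8
        unfold Fs
        exact_mod_cast this
      have h6 : ((2 * (8 * n - jj σ p) : ℕ) : ℝ) * Real.log p ≤ ((Fs σ n p : ℝ) / 20 + 50) * Real.log p :=
        mul_le_mul_of_nonneg_right (by linarith) hlp
      have h7 : 0 ≤ 2 * (padicValNat p (sfac n) : ℝ) * Real.log p := by positivity
      linarith
    · have h4 := h2 p hp h8 hs'
      have h5 : (20 : ℝ) * ((E2 n σ p : ℝ) - (SF n p : ℝ)) ≤ (Fs σ n p : ℝ) + 1000 := by
        have := medium hC1 hC2 n σ p hσ ho h8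
        exact_mod_cast this
      have h6 : (SF n p : ℝ) = 2 * (padicValNat p (sfac n) : ℝ) := by
        have := SF_eq n p hp (by omega)
        rw [this]
        unfold sfac
        rw [Int.cast_mul, Int.cast_natCast]
        norm_num
      rw [h6] at h5
      have h7 : (E2 n σ p : ℝ) * Real.log p ≤
          (2 * (padicValNat p (sfac n) : ℝ) + (Fs σ n p : ℝ) / 20 + 50) * Real.log p :=
        mul_le_mul_of_nonneg_right (by linarith) hlp
      linarith

lemma log7 : Real.log 7 ≤ 59 / 21 * Real.log 2 := by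
  have h : (7 : ℝ) ^ 21 ≤ 2 ^ 59 := by norm_num
  have h2 := Real.log_le_log (by positivity) h
  rw [Real.log_pow, Real.log_pow] at h2
  push_cast at h2
  linarith

lemma log_sfac (n : ℕ) : Real.log (sfac n : ℝ) = ∑ i ∈ Finset.range (7 * n), Real.log (i.factorial : ℝ) := by
  unfold sfac
  rw [Nat.cast_prod, Real.log_prod]
  intro i _
  exact_mod_cast i.factorial_ne_zero

lemma card_small (n : ℕ) : ((PQ n).filter (fun p => p ^ 2 ≤ 32 * n + 3)).card ≤ Nat.sqrt (32 * n + 3) + 1 := by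
  calc ((PQ n).filter (fun p => p ^ 2 ≤ 32 * n + 3)).card ≤ (Finset.range (Nat.sqrt (32 * n + 3) + 1)).card := by
        apply Finset.card_le_card
        intro p hp
        rw [Finset.mem_filter] at hp
        rw [Finset.mem_range, Nat.lt_succ_iff, Nat.le_sqrt']
        exact hp.2
    _ = _ := Finset.card_range _

lemma small_lim (K : ℝ) : Tendsto (fun n : ℕ =>
    ((Nat.sqrt (32 * n + 3) : ℝ) + 1) * (K * n * Real.log (32 * n + 3)) / (n : ℝ) ^ 2) atTop (𝓝 0) := by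
  have h1 : Tendsto (fun x : ℝ => Real.log x / x ^ (1 / 2 : ℝ)) atTop (𝓝 0) :=
    (isLittleO_log_rpow_atTop (by norm_num : (0 : ℝ) < 1 / 2)).tendsto_div_nhds_zero
  have h2 : Tendsto (fun n : ℕ => (36 : ℝ) * (n : ℝ)) atTop atTop :=
    (tendsto_natCast_atTop_atTop).const_mul_atTop (by norm_num)
  have h3 := (h1.comp h2).const_mul (42 * |K|)
  rw [mul_zero] at h3
  refine squeeze_zero_norm' ?_ h3
  filter_upwards [eventually_ge_atTop 1] with n hn
  have hn0 : (1 : ℝ) ≤ n := by exact_mod_cast hn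
  simp only [Function.comp]
  have hs : Real.sqrt (36 * (n : ℝ)) = (36 * (n : ℝ)) ^ (1 / 2 : ℝ) := Real.sqrt_eq_rpow _
  rw [← hs]
  have hs2 : Real.sqrt (36 * (n : ℝ)) = 6 * Real.sqrt n := by
    rw [Real.sqrt_mul (by norm_num), show (36 : ℝ) = 6 ^ 2 by norm_num, Real.sqrt_sq (by norm_num)]
  rw [hs2]
  have hsn : 1 ≤ Real.sqrt n := by
    rw [Real.one_le_sqrt]
    exact hn0
  have hss : Real.sqrt n * Real.sqrt n = n := Real.mul_self_sqrt (by linarith)
  have ha : ((Nat.sqrt (32 * n + 3) : ℝ) + 1) ≤ 7 * Real.sqrt n := by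
    have h4 : (Nat.sqrt (32 * n + 3) : ℝ) ≤ Real.sqrt (36 * (n : ℝ)) := by
      apply Real.le_sqrt_of_sq_le
      have h5 : (Nat.sqrt (32 * n + 3)) ^ 2 ≤ 36 * n := (Nat.sqrt_le' _).trans (by omega)
      exact_mod_cast h5
    rw [hs2] at h4
    linarith
  have hb : 0 ≤ Real.log (32 * (n : ℝ) + 3) := Real.log_nonneg (by linarith)
  have hc : Real.log (32 * (n : ℝ) + 3) ≤ Real.log (36 * n) := Real.log_le_log (by linarith) (by linarith)
  rw [norm_div, norm_mul, norm_mul, norm_mul, Real.norm_eq_abs, Real.norm_eq_abs, Real.norm_eq_abs, Real.norm_eq_abs,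
    Real.norm_eq_abs, abs_of_nonneg (by positivity : (0 : ℝ) ≤ (Nat.sqrt (32 * n + 3) : ℝ) + 1),
    abs_of_nonneg (by linarith : (0 : ℝ) ≤ (n : ℝ)), abs_of_nonneg hb, abs_of_nonneg (by positivity : (0 : ℝ) ≤ (n : ℝ) ^ 2)]
  rw [div_le_iff₀ (by positivity)]
  have hd : 42 * |K| * (Real.log (36 * n) / (6 * Real.sqrt n)) * (n : ℝ) ^ 2 =
      7 * Real.sqrt n * (|K| * n * Real.log (36 * n)) := by
    have hsn0 : Real.sqrt n ≠ 0 := by linarith
    field_simp
    rw [show Real.sqrt (n : ℝ) ^ 2 = n by rw [sq, hss]]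
    ring
  rw [hd]
  exact mul_le_mul ha (mul_le_mul_of_nonneg_left hc (by positivity)) (by positivity) (by positivity)

lemma odd_split (σ : ℕ) (hσ : σ = 1 ∨ σ = 3) (n : ℕ) :
    ∑ p ∈ PQ n, (if p % 2 = 1 then (Fs σ n p : ℝ) / 20 * Real.log p else 0) =
      (∑ p ∈ PP σ n, (FA n p : ℝ) * Real.log p + ∑ p ∈ PP (4 - σ) n, (FB n p : ℝ) * Real.log p) / 20 := by
  have h1 : ∑ p ∈ PQ n, (if p % 2 = 1 then (Fs σ n p : ℝ) / 20 * Real.log p else 0) =
      ∑ p ∈ (PQ n).filter (fun p => p % 2 = 1), (Fs σ n p : ℝ) / 20 * Real.log p := by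
    rw [Finset.sum_filter]
  have h2 : (PQ n).filter (fun p => p % 2 = 1) = PP σ n ∪ PP (4 - σ) n := by
    ext p
    unfold PQ PP
    simp only [Finset.mem_filter, Finset.mem_union, Finset.mem_range]
    constructor
    · rintro ⟨⟨h3, h4⟩, h5⟩
      have : p % 4 = σ ∨ p % 4 = 4 - σ := by omega
      rcases this with h | h
      · exact Or.inl ⟨h3, h4, h⟩
      · exact Or.inr ⟨h3, h4, h⟩
    · rintro (⟨h3, h4, h5⟩ | ⟨h3, h4, h5⟩)
      · exact ⟨⟨h3, h4⟩, by omega⟩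
      · exact ⟨⟨h3, h4⟩, by omega⟩
  have h3 : Disjoint (PP σ n) (PP (4 - σ) n) := by
    rw [Finset.disjoint_left]
    intro p hp hp'
    unfold PP at hp hp'
    rw [Finset.mem_filter] at hp hp'
    omega
  rw [h1, h2, Finset.sum_union h3, add_div, Finset.sum_div, Finset.sum_div]
  congr 1
  · apply Finset.sum_congr rfl
    intro p hp
    unfold PP at hp
    rw [Finset.mem_filter] at hp
    unfold Fs
    rw [if_pos hp.2.2]
    ring
  · apply Finset.sum_congr rfl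
    intro p hp
    unfold PP at hp
    rw [Finset.mem_filter] at hp
    unfold Fs
    rw [if_neg (by omega)]
    ring

theorem P_sum (hPA : PAs) (hPA2 : PA2s) (hPB : PBs) (hC1 : PC1s) (hC2 : PC2s) (σ : ℕ) (hσ : σ = 1 ∨ σ = 3) (C : ℝ)
    (hC : 0 ≤ C) : ∀ᶠ n : ℕ in atTop, ∀ b : ℕ → ℝ,
    (∀ p, p.Prime → 8 * n < p → b p ≤ ((2 * (8 * n - jj σ p) : ℕ) : ℝ) * Real.log p) →
    (∀ p, p.Prime → p ≤ 8 * n → 32 * n + 3 < p ^ 2 → b p ≤ (E2 n σ p : ℝ) * Real.log p) →
    (∀ p, p.Prime → p ^ 2 ≤ 32 * n + 3 →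
      b p ≤ (2 * (padicValNat p (sfac n) : ℝ) + C * n * ((Nat.log p (32 * n + 3) : ℝ) + 1)) * Real.log p) →
    ∑ p ∈ PQ n, b p ≤ 49 * (n : ℝ) ^ 2 * Real.log n + 206 * (n : ℝ) ^ 2 := by
  have t1 := ((FA_lim hPA hPA2 σ hσ).add (FB_lim hPA hPA2 (4 - σ) (by omega))).div_const 20
  have t2 := small_lim (2 * C + 150)
  have t3 : Tendsto (fun n : ℕ => 50 * (Real.log 4 * (35 * (n : ℝ))) / (n : ℝ) ^ 2) atTop (𝓝 0) := by
    have h := (tendsto_inv_atTop_zero.comp (tendsto_natCast_atTop_atTop (R := ℝ))).const_mul (50 * (Real.log 4 * 35))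
    rw [mul_zero] at h
    refine h.congr' ?_
    filter_upwards [eventually_ge_atTop 1] with n hn
    have hn0 : (n : ℝ) ≠ 0 := by exact_mod_cast (by omega : n ≠ 0)
    simp only [Function.comp]
    field_simp
  have t := (t2.add t1).add t3
  have e : (0 : ℝ) + (2570 + 3328 / 3) / 20 + 0 = 5519 / 30 := by norm_num
  rw [e] at t
  have t' := t.eventually (gt_mem_nhds (show (5519 / 30 : ℝ) < 18399 / 100 by norm_num))
  filter_upwards [t', hPB (1 / 100) (by norm_num), eventually_ge_atTop 1] with n hn1 hn2 hn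
  intro b h1 h2 h3
  have hn0 : (1 : ℝ) ≤ n := by exact_mod_cast hn
  have hmem : ∀ p ∈ PQ n, p.Prime ∧ p ≤ 32 * n + 3 := by
    intro p hp
    unfold PQ at hp
    rw [Finset.mem_filter, Finset.mem_range] at hp
    exact ⟨hp.2, by omega⟩
  have s0 : ∑ p ∈ PQ n, b p ≤ ∑ p ∈ PQ n, (2 * (padicValNat p (sfac n) : ℝ) * Real.log p +
      ((if p ^ 2 ≤ 32 * n + 3 then (2 * C + 150) * n * Real.log (32 * n + 3) else 0) +
      (if p % 2 = 1 then (Fs σ n p : ℝ) / 20 * Real.log p else 0) + 50 * Real.log p)) :=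
    Finset.sum_le_sum fun p hp => pointwise hC1 hC2 σ hσ C hC n hn b h1 h2 h3 p (hmem p hp).1 (hmem p hp).2
  rw [Finset.sum_add_distrib, Finset.sum_add_distrib, Finset.sum_add_distrib, odd_split σ hσ n] at s0
  have s1 : ∑ p ∈ PQ n, 2 * (padicValNat p (sfac n) : ℝ) * Real.log p ≤
      2 * ∑ i ∈ Finset.range (7 * n), Real.log (i.factorial : ℝ) := by
    rw [← log_sfac]
    have := sum_val_log (sfac n) (PQ n) (fun p hp => (hmem p hp).1)
    simp only [mul_assoc]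
    rw [← Finset.mul_sum]
    linarith
  have s2 : ∑ p ∈ PQ n, (if p ^ 2 ≤ 32 * n + 3 then (2 * C + 150) * n * Real.log (32 * n + 3) else 0) ≤
      ((Nat.sqrt (32 * n + 3) : ℝ) + 1) * ((2 * C + 150) * n * Real.log (32 * n + 3)) := by
    rw [← Finset.sum_filter, Finset.sum_const, nsmul_eq_mul]
    apply mul_le_mul_of_nonneg_right
    · exact_mod_cast card_small n
    · have : 0 ≤ Real.log (32 * (n : ℝ) + 3) := Real.log_nonneg (by linarith)
      positivity
  have s3 : ∑ p ∈ PQ n, 50 * Real.log (p : ℝ) ≤ 50 * (Real.log 4 * (35 * (n : ℝ))) := by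
    rw [← Finset.mul_sum]
    apply mul_le_mul_of_nonneg_left _ (by norm_num)
    have h4 : ∑ p ∈ PQ n, Real.log (p : ℝ) = Chebyshev.theta ((32 * n + 3 : ℕ) : ℝ) := by
      rw [Chebyshev.theta_eq_sum_Icc, Nat.floor_natCast]
      unfold PQ
      congr 1
      ext p
      simp only [Finset.mem_filter, Finset.mem_range, Finset.mem_Icc]
      constructor
      · rintro ⟨h, h'⟩
        exact ⟨⟨by omega, by omega⟩, h'⟩
      · rintro ⟨⟨_, h⟩, h'⟩
        exact ⟨by omega, h'⟩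
    rw [h4]
    refine (Chebyshev.theta_le_log4_mul_x (Nat.cast_nonneg _)).trans ?_
    apply mul_le_mul_of_nonneg_left _ (Real.log_nonneg (by norm_num))
    push_cast
    linarith
  have hn3 : ((Nat.sqrt (32 * n + 3) : ℝ) + 1) * ((2 * C + 150) * n * Real.log (32 * n + 3)) +
      (∑ p ∈ PP σ n, (FA n p : ℝ) * Real.log p + ∑ p ∈ PP (4 - σ) n, (FB n p : ℝ) * Real.log p) / 20 +
      50 * (Real.log 4 * (35 * (n : ℝ))) ≤ 18399 / 100 * (n : ℝ) ^ 2 := by
    have hnn : (0 : ℝ) < (n : ℝ) ^ 2 := by positivity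
    rw [← div_le_iff₀ hnn]
    refine le_trans (le_of_eq ?_) hn1.le
    field_simp
  have h7 := log7
  have h8 := Real.log_two_lt_d9
  have h9 : 49 * Real.log 7 - 147 / 2 + 1 / 100 ≤ 2201 / 100 := by linarith
  have h10 : (49 * Real.log 7 - 147 / 2 + 1 / 100) * (n : ℝ) ^ 2 ≤ 2201 / 100 * (n : ℝ) ^ 2 :=
    mul_le_mul_of_nonneg_right h9 (by positivity)
  linarith

end Pool.Agent.H346R2.QG
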