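import Mathlib

/-!
# Prime sum for the project QG: definitions
-/

namespace Pool.Agent.H346R2.QG

/-- least `j` with `p ∣ 4 j + σ` -/
def jj (σ p : ℕ) : ℕ := if p % 4 = σ then (p - σ) / 4 else (3 * p - σ) / 4

/-- exponent of `p ≤ 8 n` in the determinant (raw normalisation) -/
def E2 (n σ p : ℕ) : ℤ :=
  7 * (n : ℤ) + ((8 * n / p : ℕ) : ℤ) ^ 2 * (p : ℤ) + (2 * ((8 * n / p : ℕ) : ℤ) + 1) * ((8 * n % p : ℕ) : ℤ)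
    - ((n / p : ℕ) : ℤ) ^ 2 * (p : ℤ) - (2 * ((n / p : ℕ) : ℤ) + 1) * ((n % p : ℕ) : ℤ)
    - 8 * (n : ℤ) * ((2 * n / p : ℕ) : ℤ) - ((8 * n / p : ℕ) : ℤ) * ((2 * n % p : ℕ) : ℤ)
    - ((8 * n % p + 2 * n % p - p : ℕ) : ℤ)
    + (n : ℤ) * ((2 * n / p : ℕ) : ℤ) + ((n / p : ℕ) : ℤ) * ((2 * n % p : ℕ) : ℤ)
    + ((min (n % p) (2 * n % p) : ℕ) : ℤ)
    - (if 8 * n / p = 1 then ((min (jj σ p) (p - 2 * n % p) - 8 * n % p : ℕ) : ℤ) else 0)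

/-- `2 * ∑_{i < 7n} (i / p)` -/
def SF (n p : ℕ) : ℤ :=
  (p : ℤ) * ((7 * n / p : ℕ) : ℤ) * (((7 * n / p : ℕ) : ℤ) - 1) + 2 * ((7 * n / p : ℕ) : ℤ) * ((7 * n % p : ℕ) : ℤ)

/-- common part of the majorant (times 20) -/
def FR (n p : ℕ) : ℤ :=
  120 * ((4 * n - p : ℕ) : ℤ) - 40 * ((7 * n - 2 * p : ℕ) : ℤ) - 20 * ((10 * n - 3 * p : ℕ) : ℤ)
    + 60 * ((8 * n - 3 * p : ℕ) : ℤ) - 20 * ((10 * n - 4 * p : ℕ) : ℤ) - 40 * ((7 * n - 3 * p : ℕ) : ℤ)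
    + (if p ≤ 2 * n then 32 * (n : ℤ) else 0) + 74 * ((2 * n - p : ℕ) : ℤ)

/-- majorant for `p % 4 = σ` (times 20) -/
def FA (n p : ℕ) : ℤ :=
  10 * ((32 * n - p : ℕ) : ℤ) - (if p ≤ 8 * n then 20 * (n : ℤ) else 0) + 55 * ((8 * n - p : ℕ) : ℤ)
    - 40 * ((7 * n - p : ℕ) : ℤ) - 5 * ((32 * n - 5 * p : ℕ) : ℤ) - 40 * ((5 * n - p : ℕ) : ℤ) + FR n p

/-- majorant for `p % 4 = 4 - σ` (times 20) -/
def FB (n p : ℕ) : ℤ :=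
  10 * ((32 * n - 3 * p : ℕ) : ℤ) + (if p ≤ 8 * n then 60 * (n : ℤ) else 0) + 50 * ((8 * n - p : ℕ) : ℤ)
    - 40 * ((7 * n - p : ℕ) : ℤ) - 80 * ((5 * n - p : ℕ) : ℤ) + FR n p

/-- primes `≤ 32 n + 3` congruent to `a` modulo 4 -/
def PP (a n : ℕ) : Finset ℕ := (Finset.range (32 * n + 4)).filter (fun p => p.Prime ∧ p % 4 = a)

end Pool.Agent.H346R2.QG
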