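import Pool.Agent.H346R2.QG.PD3
import Pool.Agent.H397R2.QG.Defs

/-!
# QG: the p-adic side, from the three pointwise bounds and the prime sum
-/

open Filter Topology Pool.Agent.H397R2.QG

namespace Pool.Agent.H346R2.QG

/-- large primes -/
def Pbig : Prop := ∀ (n σ q p : ℕ) [Fact p.Prime] (u : ℚ), σ = 1 ∨ σ = 3 → UInt q u → 1 ≤ n → 8 * n < p →
    padicNorm p ((q : ℚ) ^ (7 * n) * DET n σ u (7 * n)) ≤ (p : ℚ) ^ (2 * (8 * n - j0 σ p) : ℕ)

/-- medium primes -/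
def Pmed : Prop := ∀ (n σ q p : ℕ) [Fact p.Prime] (u : ℚ), σ = 1 ∨ σ = 3 → UInt q u → 1 ≤ n → 3 ≤ p → p ≤ 8 * n →
    32 * n + 3 < p ^ 2 →
    padicNorm p ((q : ℚ) ^ (7 * n) * DET n σ u (7 * n)) ≤ (p : ℚ) ^ (E2 n σ p)

/-- small primes -/
def Psmall : Prop := ∃ C : ℕ, ∀ (n σ q p : ℕ) [Fact p.Prime] (u : ℚ), σ = 1 ∨ σ = 3 → UInt q u → 1 ≤ n →
    p ^ 2 ≤ 32 * n + 3 →
    padicNorm p ((q : ℚ) ^ (7 * n) * DET n σ u (7 * n)) ≤
      (p : ℚ) ^ (2 * padicValNat p (∏ i ∈ Finset.range (7 * n), i.factorial) +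
        C * n * (Nat.log p (32 * n + 3) + 1) : ℕ)

theorem P_main_of (hPA : PAs) (hPA2 : PA2s) (hPB : PBs) (hC1 : PC1s) (hC2 : PC2s)
    (hbig : Pbig) (hmed : Pmed) (hsmall : Psmall)
    (σ q : ℕ) (hσ : σ = 1 ∨ σ = 3) (u : ℚ) (hu : UInt q u) : ∀ᶠ n : ℕ in atTop,
    ∃ (S : Finset ℕ) (B : ℕ → ℝ), (∀ p ∈ S, p.Prime ∧ 0 < B p) ∧
      (∀ p ∈ S, ((padicNorm p ((q : ℚ) ^ (7 * n) * DET n σ u (7 * n)) : ℚ) : ℝ) ≤ B p) ∧
      (∀ p, p.Prime → p ∉ S → padicNorm p ((q : ℚ) ^ (7 * n) * DET n σ u (7 * n)) ≤ 1) ∧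
      ∑ p ∈ S, Real.log (B p) ≤ 49 * (n : ℝ) ^ 2 * Real.log n + 206 * (n : ℝ) ^ 2 := by
  obtain ⟨C, hC⟩ := hsmall
  filter_upwards [P_sum hPA hPA2 hPB hC1 hC2 σ hσ (C : ℝ) (Nat.cast_nonneg C), eventually_ge_atTop 1] with n hn1 hn
  obtain ⟨B, hB⟩ : ∃ B : ℕ → ℝ, B = fun p => if 8 * n < p then (p : ℝ) ^ (2 * (8 * n - jj σ p) : ℕ) else
      if 32 * n + 3 < p ^ 2 then (p : ℝ) ^ (E2 n σ p) else
      (p : ℝ) ^ (2 * padicValNat p (∏ i ∈ Finset.range (7 * n), i.factorial) +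
        C * n * (Nat.log p (32 * n + 3) + 1) : ℕ) := ⟨_, rfl⟩
  refine ⟨PQ n, B, ?_, ?_, ?_, ?_⟩
  · intro p hp
    unfold PQ at hp
    rw [Finset.mem_filter] at hp
    have hp0 : (0 : ℝ) < p := by exact_mod_cast hp.2.pos
    refine ⟨hp.2, ?_⟩
    rw [hB]
    simp only
    split_ifs
    · positivity
    · positivity
    · positivity
  · intro p hp
    unfold PQ at hp
    rw [Finset.mem_filter] at hp
    have : Fact p.Prime := ⟨hp.2⟩
    rw [hB]
    simp only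
    split_ifs with h1 h2
    · have h := hbig n σ q p u hσ hu hn h1
      exact_mod_cast h
    · have h3 : 3 ≤ p := by
        rcases hp.2.two_le.lt_or_eq with h | h
        · exact h
        · rw [← h] at h2
          omega
      have h := hmed n σ q p u hσ hu hn h3 (by omega) h2
      have h' := (Rat.cast_le (K := ℝ)).2 h
      rw [Rat.cast_zpow, Rat.cast_natCast] at h'
      exact h'
    · have h := hC n σ q p u hσ hu hn (by omega)
      exact_mod_cast h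
  · intro p hp hpS
    have : Fact p.Prime := ⟨hp⟩
    have h1 : 32 * n + 4 ≤ p := by
      by_contra hcon
      apply hpS
      unfold PQ
      rw [Finset.mem_filter, Finset.mem_range]
      exact ⟨by omega, hp⟩
    have h := hbig n σ q p u hσ hu hn (by omega)
    have h2 : 8 * n - j0 σ p = 0 := by
      unfold j0
      split_ifs <;> omega
    rw [h2, mul_zero, pow_zero] at h
    exact h
  · apply hn1 (fun p => Real.log (B p))
    · intro p hp h1
      rw [hB]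
      simp only [h1, if_true]
      rw [Real.log_pow]
    · intro p hp h1 h2
      rw [hB]
      simp only [h2, if_true, if_neg (by omega : ¬ 8 * n < p)]
      rw [Real.log_zpow]
    · intro p hp h1
      have h8 : p ≤ 8 * n := by
        by_contra hcon
        have h9 : 8 * n + 1 ≤ p := by omega
        have h10 : (8 * n + 1) ^ 2 ≤ p ^ 2 := Nat.pow_le_pow_left h9 2
        nlinarith
      rw [hB]
      simp only [if_neg (by omega : ¬ 8 * n < p), if_neg (by omega : ¬ 32 * n + 3 < p ^ 2)]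
      rw [Real.log_pow]
      unfold sfac
      push_cast
      exact le_refl _

end Pool.Agent.H346R2.QG
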